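import Pool.Agent.Helper5.UN.Goals

/-!
# Project UN, packet HVB: basic properties of `hv`
-/

namespace Pool.Agent.Helper16.UN

open WeierstrassCurve Height Height.AdmissibleAbsValues MvPolynomial
open Pool.Agent.Helper29.BL Pool.Agent.Helper29.GC Pool.Agent.Helper5.RO Pool.Agent.Helper5.UN

noncomputable section

theorem hv_sub {R S : Type} [CommRing R] [CommRing S] (φ : R →+* S) {σ : Type} [Fintype σ]
    (E : σ → ℕ) (f : MvPolynomial σ R) (y : σ → Fin 2 → S) (T : Finset (σ →₀ ℕ))
    (hT : f.support ⊆ T) :
    hv φ E f y = ∑ m ∈ T, φ (coeff m f) * ∏ i, (y i 0 ^ m i * y i 1 ^ (E i - m i)) := by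
  unfold hv
  refine Finset.sum_subset hT fun m _ hm => ?_
  rw [notMem_support_iff.mp hm, map_zero, zero_mul]

theorem deg_le' {R : Type} [CommRing R] {σ : Type} {E : σ → ℕ} {f : MvPolynomial σ R}
    (hf : ∀ i, degreeOf i f ≤ E i) {m : σ →₀ ℕ} (hm : m ∈ f.support) (i : σ) : m i ≤ E i := by
  have h5 := hf i
  rw [degreeOf_eq_sup] at h5
  exact (Finset.le_sup (f := fun m : σ →₀ ℕ => m i) hm).trans h5

theorem gHVB : G_HVB := by
  refine ⟨?_, ?_, ?_, ?_, ?_, ?_, ?_⟩
  · intro R S _ _ φ σ _ E f g y
    classical
    have h1 : (f + g).support ⊆ f.support ∪ g.support := support_add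
    rw [hv_sub φ E (f + g) y _ h1, hv_sub φ E f y _ Finset.subset_union_left,
      hv_sub φ E g y _ Finset.subset_union_right, ← Finset.sum_add_distrib]
    refine Finset.sum_congr rfl fun m _ => ?_
    rw [coeff_add, map_add, add_mul]
  · intro R S _ _ φ σ _ E c f y
    have h1 : (C c * f).support ⊆ f.support := by
      intro m hm
      rw [mem_support_iff] at hm ⊢
      rw [coeff_C_mul] at hm
      exact right_ne_zero_of_mul hm
    rw [hv_sub φ E (C c * f) y _ h1]
    unfold hv
    rw [Finset.mul_sum]
    refine Finset.sum_congr rfl fun m _ => ?_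
    rw [coeff_C_mul, map_mul, mul_assoc]
  · intro R S _ _ φ σ _ E f κ y hf
    unfold hv
    rw [Finset.mul_sum]
    refine Finset.sum_congr rfl fun m hm => ?_
    rw [mul_left_comm, ← Finset.prod_mul_distrib]
    congr 1
    refine Finset.prod_congr rfl fun i _ => ?_
    have h1 := deg_le' hf hm i
    simp only [Pi.smul_apply, smul_eq_mul, mul_pow]
    have h2 : κ i ^ E i = κ i ^ m i * κ i ^ (E i - m i) := by
      rw [← pow_add]; congr 1; omega
    rw [h2]; ring
  · intro R S _ _ φ σ _ E f x
    unfold hv
    rw [eval₂_eq']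
    refine Finset.sum_congr rfl fun m _ => ?_
    congr 1
    refine Finset.prod_congr rfl fun i _ => ?_
    simp
  · intro R S T _ _ _ φ ψ σ _ E f y
    unfold hv
    rw [map_sum]
    refine Finset.sum_congr rfl fun m _ => ?_
    rw [map_mul, map_prod, RingHom.comp_apply]
    congr 1
    refine Finset.prod_congr rfl fun i _ => ?_
    rw [map_mul, map_pow, map_pow]
  · intro K _ _ σ _ E f hf
    classical
    refine ⟨fun v => Real.log (cst v (f.support.card + 1)) +
      ∑ m ∈ f.support, Real.posLog (v (coeff m f)), ?_, ?_, ?_⟩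
    · exact (FS_log_cst _).add (FS.sum _ fun m _ => FS_posLog _)
    · intro v
      have h1 : (1 : ℝ) ≤ (f.support.card : ℝ) + 1 := by
        have : (0 : ℝ) ≤ (f.support.card : ℝ) := Nat.cast_nonneg _
        linarith
      exact add_nonneg (Real.log_nonneg (one_le_cst v h1))
        (Finset.sum_nonneg fun _ _ => Real.posLog_nonneg)
    · intro v y
      have h1 : (1 : ℝ) ≤ (f.support.card : ℝ) + 1 := by
        have : (0 : ℝ) ≤ (f.support.card : ℝ) := Nat.cast_nonneg _
        linarith
      have hM : ∀ i, 0 ≤ max (v (y i 0)) (v (y i 1)) := fun i => (v.nonneg _).trans (le_max_left _ _)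
      rw [Real.exp_add, Real.exp_log (cst_pos v h1)]
      unfold hv
      simp only [RingHom.id_apply]
      set Q := Real.exp (∑ m ∈ f.support, Real.posLog (v (coeff m f))) with hQ
      rw [mul_assoc]
      refine abv_sum_le v _ _ ?_ (fun m hm => ?_) (by linarith)
      · exact mul_nonneg (Real.exp_pos _).le (Finset.prod_nonneg fun i _ => pow_nonneg (hM i) _)
      rw [map_mul]
      refine mul_le_mul ?_ ?_ (v.nonneg _) (Real.exp_pos _).le
      · have h2 : Real.posLog (v (coeff m f)) ≤ ∑ m ∈ f.support, Real.posLog (v (coeff m f)) :=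
          Finset.single_le_sum (f := fun m => Real.posLog (v (coeff m f)))
            (fun _ _ => Real.posLog_nonneg) hm
        have h3 : v (coeff m f) ≤ Real.exp (Real.posLog (v (coeff m f))) := by
          rcases eq_or_lt_of_le (v.nonneg (coeff m f)) with h0 | h0
          · rw [← h0]; exact (Real.exp_pos _).le
          · conv_lhs => rw [← Real.exp_log h0]
            exact Real.exp_le_exp.2 (le_max_right _ _)
        exact h3.trans (Real.exp_le_exp.2 h2)
      · rw [map_prod]
        refine Finset.prod_le_prod (fun i _ => v.nonneg _) fun i _ => ?_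
        rw [map_mul, map_pow, map_pow]
        have h4 := deg_le' hf hm i
        calc v (y i 0) ^ m i * v (y i 1) ^ (E i - m i)
            ≤ (max (v (y i 0)) (v (y i 1))) ^ m i * (max (v (y i 0)) (v (y i 1))) ^ (E i - m i) :=
              mul_le_mul (pow_le_pow_left₀ (v.nonneg _) (le_max_left _ _) _)
                (pow_le_pow_left₀ (v.nonneg _) (le_max_right _ _) _)
                (pow_nonneg (v.nonneg _) _) (pow_nonneg (hM i) _)
          _ = (max (v (y i 0)) (v (y i 1))) ^ E i := by
              rw [← pow_add]; congr 1; omega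
  · intro K _ σ τ _ E d f y hf hy
    unfold hv
    refine totalDegree_finsetSum_le fun m hm => ?_
    refine (totalDegree_mul _ _).trans ?_
    rw [totalDegree_C, zero_add]
    refine (totalDegree_finsetProd _ _).trans ?_
    refine Finset.sum_le_sum fun i _ => ?_
    refine (totalDegree_mul _ _).trans ?_
    have h4 := deg_le' hf hm i
    have h5 : (y i 0 ^ m i).totalDegree ≤ m i * d i :=
      (totalDegree_pow _ _).trans (Nat.mul_le_mul_left _ (hy i 0))
    have h6 : (y i 1 ^ (E i - m i)).totalDegree ≤ (E i - m i) * d i :=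
      (totalDegree_pow _ _).trans (Nat.mul_le_mul_left _ (hy i 1))
    calc (y i 0 ^ m i).totalDegree + (y i 1 ^ (E i - m i)).totalDegree
        ≤ m i * d i + (E i - m i) * d i := add_le_add h5 h6
      _ = E i * d i := by rw [← add_mul]; congr 1; omega

end

end Pool.Agent.Helper16.UN
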